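import Pool.Agent.R296.SM.Main
import Pool.Agent.E8helper86.NS.Corr

/-! Sequences with vanishing self correlations are isolated from singular measures. -/

set_option autoImplicit false

open Finset MeasureTheory Filter Topology

namespace Pool.Agent.E8helper86.SS

open Pool.Agent.R296.SM Pool.Agent.E8helper86.NS

/-- the twists of the sequence `c` -/
def Tws (c : ℕ → ℂ) : Set (ℕ → ℂ) :=
  Set.range fun (θ : UnitAddCircle) (n : ℕ) => c n * (fourier (n : ℤ) θ : ℂ)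

theorem normsq_TP (S : Finset ℤ) (l : ℤ → ℂ) (η : UnitAddCircle) : ((‖TP S l η‖ ^ 2 : ℝ) : ℂ) =
    ∑ k ∈ S, ∑ k' ∈ S, (starRingEnd ℂ) (l k) * l k' * (fourier (k' - k) η : ℂ) := by
  have : ((‖TP S l η‖ ^ 2 : ℝ) : ℂ) = (starRingEnd ℂ) (TP S l η) * TP S l η := by
    rw [Complex.conj_mul']
    push_cast
    rfl
  rw [this, TP, map_sum, sum_mul_sum]
  refine sum_congr rfl fun k _ => sum_congr rfl fun m _ => ?_
  rw [map_mul, ← fourier_mul_conj]
  ring

theorem int_e (j : ℤ) (N : ℕ) (u : ℤ → ℂ) (hu : ∀ n, n ∉ Icc (1 : ℤ) N → u n = 0) :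
    ∫ η : UnitAddCircle, (fourier j η : ℂ) * ((‖TP (Icc (1 : ℤ) N) u η‖ ^ 2 : ℝ) : ℂ) = cor u N (-j) := by
  simp_rw [normsq_TP, mul_sum]
  have hcont : ∀ m n : ℤ, Continuous fun η : UnitAddCircle =>
      (fourier j η : ℂ) * ((starRingEnd ℂ) (u m) * u n * (fourier (n - m) η : ℂ)) := fun m n =>
    (map_continuous (fourier j)).mul (continuous_const.mul (map_continuous (fourier (n - m))))
  rw [integral_finsetSum _ fun m _ => int_of_cont (continuous_finsetSum _ fun n _ => hcont m n) _]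
  unfold cor
  refine sum_congr rfl fun m _ => ?_
  rw [integral_finsetSum _ fun n _ => int_of_cont (hcont m n) _]
  have h1 : ∀ n : ℤ, ∫ η : UnitAddCircle, (fourier j η : ℂ) * ((starRingEnd ℂ) (u m) * u n * (fourier (n - m) η : ℂ)) =
      if n = m + -j then star (u m) * u n else 0 := by
    intro n
    have e : ∀ η : UnitAddCircle, (fourier j η : ℂ) * ((starRingEnd ℂ) (u m) * u n * (fourier (n - m) η : ℂ)) =
        ((starRingEnd ℂ) (u m) * u n) * (fourier (j + (n - m)) η : ℂ) := by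
      intro η
      rw [fourier_add]
      ring
    simp_rw [e]
    rw [integral_const_mul, int_fourier]
    by_cases h : n = m + -j
    · rw [if_pos h, if_pos (by omega), mul_one]
      rfl
    · rw [if_neg h, if_neg (by omega), mul_zero]
  simp_rw [h1]
  rw [Finset.sum_ite_eq' (Icc (1 : ℤ) N) (m + -j)]
  split_ifs with h
  · rfl
  · rw [hu _ h, mul_zero]

theorem int_TP_le (S : Finset ℤ) (l : ℤ → ℂ) (N : ℕ) (u : ℤ → ℂ) (hu : ∀ n, n ∉ Icc (1 : ℤ) N → u n = 0) :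
    ∫ η : UnitAddCircle, ‖TP S l η‖ ^ 2 * ‖TP (Icc (1 : ℤ) N) u η‖ ^ 2 ≤ Gam S l u N := by
  have hcont : ∀ k k' : ℤ, Continuous fun η : UnitAddCircle =>
      ((starRingEnd ℂ) (l k) * l k') * ((fourier (k' - k) η : ℂ) * ((‖TP (Icc (1 : ℤ) N) u η‖ ^ 2 : ℝ) : ℂ)) :=
    fun k k' => continuous_const.mul ((map_continuous (fourier (k' - k))).mul
      (Complex.continuous_ofReal.comp ((TP_cont _ _).norm.pow 2)))
  have h1 : ((∫ η : UnitAddCircle, ‖TP S l η‖ ^ 2 * ‖TP (Icc (1 : ℤ) N) u η‖ ^ 2 : ℝ) : ℂ) =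
      ∑ k ∈ S, ∑ k' ∈ S, (starRingEnd ℂ) (l k) * l k' * cor u N (k - k') := by
    rw [← integral_complex_ofReal]
    have e : ∀ η : UnitAddCircle, ((‖TP S l η‖ ^ 2 * ‖TP (Icc (1 : ℤ) N) u η‖ ^ 2 : ℝ) : ℂ) =
        ∑ k ∈ S, ∑ k' ∈ S, ((starRingEnd ℂ) (l k) * l k') *
          ((fourier (k' - k) η : ℂ) * ((‖TP (Icc (1 : ℤ) N) u η‖ ^ 2 : ℝ) : ℂ)) := by
      intro η
      rw [Complex.ofReal_mul, normsq_TP, sum_mul]
      refine sum_congr rfl fun k _ => ?_
      rw [sum_mul]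
      exact sum_congr rfl fun k' _ => by ring
    simp_rw [e]
    rw [integral_finsetSum _ fun k _ => int_of_cont (continuous_finsetSum _ fun k' _ => hcont k k') _]
    refine sum_congr rfl fun k _ => ?_
    rw [integral_finsetSum _ fun k' _ => int_of_cont (hcont k k') _]
    refine sum_congr rfl fun k' _ => ?_
    rw [integral_const_mul, int_e _ _ _ hu, neg_sub]
  calc ∫ η : UnitAddCircle, ‖TP S l η‖ ^ 2 * ‖TP (Icc (1 : ℤ) N) u η‖ ^ 2
      ≤ ‖((∫ η : UnitAddCircle, ‖TP S l η‖ ^ 2 * ‖TP (Icc (1 : ℤ) N) u η‖ ^ 2 : ℝ) : ℂ)‖ := by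
        rw [Complex.norm_real]
        exact le_abs_self _
    _ ≤ Gam S l u N := by
        rw [h1]
        refine (norm_sum_le _ _).trans (sum_le_sum fun k _ => (norm_sum_le _ _).trans (sum_le_sum fun k' _ => ?_))
        rw [norm_mul, norm_mul, RCLike.norm_conj]

theorem SZ_cut (c : ℕ → ℂ) (θ : UnitAddCircle) (N : ℕ) (η : UnitAddCircle) :
    SZ (ext0 fun n : ℕ => c n * (fourier (n : ℤ) θ : ℂ)) N η = TP (Icc (1 : ℤ) N) (cut c θ N) η := by
  unfold SZ TP
  have e : Ioc (0 : ℤ) N = Icc (1 : ℤ) N := by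
    ext m
    simp only [mem_Ioc, mem_Icc]
    omega
  rw [e]
  refine sum_congr rfl fun m hm => ?_
  congr 1
  unfold ext0 cut
  rw [if_pos hm]
  rw [mem_Icc] at hm
  rw [if_pos (by omega)]
  show c m.toNat * (fourier (m.toNat : ℤ) θ : ℂ) = _
  rw [Int.toNat_of_nonneg (by omega)]

theorem Tws_le {c : ℕ → ℂ} (hc : ∀ n, ‖c n‖ ≤ 1) : ∀ h ∈ Tws c, ∀ n, ‖h n‖ ≤ 1 := by
  rintro _ ⟨θ, rfl⟩ n
  rw [norm_mul, norm_fourier', mul_one]
  exact hc n

/-- singular measures are carried by closed null sets up to `δ` -/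
theorem exists_null (σ : Measure UnitAddCircle) [IsFiniteMeasure σ] (hσ : σ ⟂ₘ volume) (δ : ℝ) (hδ : 0 < δ) :
    ∃ K : Set UnitAddCircle, IsClosed K ∧ volume K = 0 ∧ σ.real Kᶜ ≤ δ := by
  obtain ⟨s, hs, hs1, hs2⟩ := hσ
  obtain ⟨K, hKs, hK, hKσ⟩ := hs.compl.exists_isClosed_sdiff_lt (μ := σ) (measure_ne_top _ _)
    (ε := ENNReal.ofReal δ) (by simp; positivity)
  refine ⟨K, hK, measure_mono_null hKs hs2, ?_⟩
  have h1 : Kᶜ ⊆ s ∪ (sᶜ \ K) := by
    intro z hz
    by_cases h : z ∈ s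
    · exact Or.inl h
    · exact Or.inr ⟨h, hz⟩
  have h2 : σ Kᶜ ≤ ENNReal.ofReal δ := by
    calc σ Kᶜ ≤ σ s + σ (sᶜ \ K) := (measure_mono h1).trans (measure_union_le _ _)
      _ ≤ 0 + ENNReal.ofReal δ := by
          gcongr
          exact hs1.le
      _ = _ := zero_add _
  exact ENNReal.toReal_le_of_le_ofReal hδ.le h2

theorem isolates_sing (σ : Measure UnitAddCircle) [IsFiniteMeasure σ] (hσ : σ ⟂ₘ volume) {E : Set ℕ} {c : ℕ → ℂ}
    (hc : ∀ n, ‖c n‖ ≤ 1) (hE : CorrZero E c) (δ : ℝ) (hδ : 0 < δ) : Isolates E (Tws c) σ δ := by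
  obtain ⟨K, hK, hK0, hKσ⟩ := exists_null σ hσ δ hδ
  obtain ⟨U, hKU, hU, hUv⟩ := Set.exists_isOpen_lt_of_lt (μ := (volume : Measure UnitAddCircle)) K
    (ENNReal.ofReal (δ / 16)) (by rw [hK0]; simp; positivity)
  obtain ⟨f, hf0, hf1, hf⟩ := exists_continuous_zero_one_of_isClosed hU.isClosed_compl hK
    (Set.disjoint_left.2 fun x hx hx' => hx (hKU hx'))
  have hUr : (volume : Measure UnitAddCircle).real U ≤ δ / 16 :=
    ENNReal.toReal_le_of_le_ofReal (by positivity) hUv.le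
  obtain ⟨a, ha0, ha⟩ : ∃ a : ℝ, 0 < a ∧ a ^ 2 ≤ δ / 16 := by
    refine ⟨min 1 (δ / 16), by positivity, ?_⟩
    have h1 : min 1 (δ / 16) ≤ 1 := min_le_left _ _
    have h2 : min 1 (δ / 16) ≤ δ / 16 := min_le_right _ _
    have h3 : 0 < min 1 (δ / 16) := by positivity
    nlinarith
  obtain ⟨S, l, hl⟩ := exists_TP f a ha0
  have hfi : ∀ η, |f η| ≤ 1 := fun η => abs_le.2 ⟨by linarith [(hf η).1], (hf η).2⟩
  -- the coefficients
  have hL : ∑ k ∈ S, ‖l k‖ ^ 2 ≤ δ / 4 := by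
    rw [← pars]
    have h1 : ∀ η, ‖TP S l η‖ ^ 2 ≤ 2 * f η ^ 2 + 2 * a ^ 2 := by
      intro η
      have h2 : ‖TP S l η‖ ≤ |f η| + a := by
        have h3 : TP S l η = (f η : ℂ) + (TP S l η - (f η : ℂ)) := by ring
        rw [h3]
        refine (norm_add_le _ _).trans (add_le_add ?_ (hl η))
        rw [Complex.norm_real, Real.norm_eq_abs]
      calc ‖TP S l η‖ ^ 2 ≤ (|f η| + a) ^ 2 := pow_le_pow_left₀ (norm_nonneg _) h2 2
        _ ≤ 2 * |f η| ^ 2 + 2 * a ^ 2 := sq_two _ _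
        _ = _ := by rw [sq_abs]
    have h4 : ∀ η, f η ^ 2 ≤ U.indicator (fun _ => (1 : ℝ)) η := by
      intro η
      by_cases h : η ∈ U
      · rw [Set.indicator_of_mem h, ← sq_abs]
        exact pow_le_one₀ (abs_nonneg _) (hfi η)
      · rw [Set.indicator_of_notMem h, hf0 h]
        simp
    calc ∫ η : UnitAddCircle, ‖TP S l η‖ ^ 2 ≤ ∫ η : UnitAddCircle, (2 * U.indicator (fun _ => (1 : ℝ)) η + 2 * a ^ 2) := by
          refine integral_mono (int_of_cont ((TP_cont _ _).norm.pow 2) _) ?_ fun η => ?_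
          · exact (((integrable_const (1 : ℝ)).indicator hU.measurableSet).const_mul 2).add (integrable_const _)
          · exact (h1 η).trans (by linarith [h4 η])
      _ = 2 * (volume : Measure UnitAddCircle).real U + 2 * a ^ 2 := by
          rw [integral_add (((integrable_const (1 : ℝ)).indicator hU.measurableSet).const_mul 2) (integrable_const _),
            integral_const_mul, integral_indicator hU.measurableSet]
          simp [Measure.real]
      _ ≤ δ / 4 := by linarith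
  refine ⟨f, fun η => hf η, ?_, ?_⟩
  · calc ∫ η, (1 - f η) ^ 2 ∂σ ≤ ∫ η, Kᶜ.indicator (fun _ => (1 : ℝ)) η ∂σ := by
          refine integral_mono (int_of_cont (by fun_prop) _)
            ((integrable_const (1 : ℝ)).indicator hK.measurableSet.compl) fun η => ?_
          by_cases h : η ∈ K
          · have : f η = 1 := hf1 h
            show (1 - f η) ^ 2 ≤ _
            rw [Set.indicator_of_notMem (by simpa using h), this]
            simp
          · show (1 - f η) ^ 2 ≤ _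
            rw [Set.indicator_of_mem (by simpa using h)]
            have := hf η
            nlinarith [this.1, this.2]
      _ = σ.real Kᶜ := by
          rw [integral_indicator hK.measurableSet.compl]
          simp [Measure.real]
      _ ≤ δ := hKσ
  · have h1 := Gam_ev hc hE S l (δ / 16) (by positivity)
    rw [ev_Lf] at h1
    obtain ⟨N₀, hN₀⟩ := h1
    refine ⟨N₀, fun N hN hNE h hh => ?_⟩
    obtain ⟨θ, rfl⟩ := hh
    have h2 := hN₀ N hN hNE θ
    simp_rw [SZ_cut]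
    set u := cut c θ N with hu
    have h3 : ∀ η, f η ^ 2 ≤ 2 * ‖TP S l η‖ ^ 2 + 2 * a ^ 2 := by
      intro η
      have h4 : |f η| ≤ ‖TP S l η‖ + a := by
        have h5 : (f η : ℂ) = TP S l η - (TP S l η - (f η : ℂ)) := by ring
        have h6 : |f η| = ‖(f η : ℂ)‖ := by rw [Complex.norm_real, Real.norm_eq_abs]
        rw [h6, h5]
        exact (norm_sub_le _ _).trans (add_le_add le_rfl (hl η))
      rw [← sq_abs]
      exact (pow_le_pow_left₀ (abs_nonneg _) h4 2).trans (sq_two _ _)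
    have hu1 : ∑ k ∈ Icc (1 : ℤ) N, ‖u k‖ ^ 2 ≤ N := by
      calc ∑ k ∈ Icc (1 : ℤ) N, ‖u k‖ ^ 2 ≤ ∑ k ∈ Icc (1 : ℤ) N, (1 : ℝ) :=
            sum_le_sum fun k _ => pow_le_one₀ (norm_nonneg _) (cut_le hc θ N k)
        _ = N := by simp
    calc ∫ η : UnitAddCircle, f η ^ 2 * ‖TP (Icc (1 : ℤ) N) u η‖ ^ 2
        ≤ ∫ η : UnitAddCircle, (2 * (‖TP S l η‖ ^ 2 * ‖TP (Icc (1 : ℤ) N) u η‖ ^ 2) +
            2 * a ^ 2 * ‖TP (Icc (1 : ℤ) N) u η‖ ^ 2) := by
          refine integral_mono (int_of_cont (((map_continuous f).pow 2).mul ((TP_cont _ _).norm.pow 2)) _)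
            (int_of_cont (((continuous_const.mul (((TP_cont _ _).norm.pow 2).mul ((TP_cont _ _).norm.pow 2)))).add
              (continuous_const.mul ((TP_cont _ _).norm.pow 2))) _) fun η => ?_
          show f η ^ 2 * ‖TP (Icc (1 : ℤ) N) u η‖ ^ 2 ≤ _
          calc f η ^ 2 * ‖TP (Icc (1 : ℤ) N) u η‖ ^ 2 ≤ (2 * ‖TP S l η‖ ^ 2 + 2 * a ^ 2) * ‖TP (Icc (1 : ℤ) N) u η‖ ^ 2 :=
                mul_le_mul_of_nonneg_right (h3 η) (sq_nonneg _)
            _ = _ := by ring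
      _ = 2 * (∫ η : UnitAddCircle, ‖TP S l η‖ ^ 2 * ‖TP (Icc (1 : ℤ) N) u η‖ ^ 2) +
            2 * a ^ 2 * ∫ η : UnitAddCircle, ‖TP (Icc (1 : ℤ) N) u η‖ ^ 2 := by
          have i1 : Integrable (fun η : UnitAddCircle => 2 * (‖TP S l η‖ ^ 2 * ‖TP (Icc (1 : ℤ) N) u η‖ ^ 2)) volume :=
            int_of_cont (continuous_const.mul (((TP_cont _ _).norm.pow 2).mul ((TP_cont _ _).norm.pow 2))) _
          have i2 : Integrable (fun η : UnitAddCircle => 2 * a ^ 2 * ‖TP (Icc (1 : ℤ) N) u η‖ ^ 2) volume :=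
            int_of_cont (continuous_const.mul ((TP_cont _ _).norm.pow 2)) _
          rw [integral_add i1 i2, integral_const_mul, integral_const_mul]
      _ ≤ 2 * ((δ / 4 + δ / 16) * N) + 2 * a ^ 2 * N := by
          have h7 := int_TP_le S l N u (cut_out c θ N)
          have h8 : Gam S l u N ≤ (δ / 4 + δ / 16) * N :=
            h2.trans (mul_le_mul_of_nonneg_right (by linarith) (Nat.cast_nonneg N))
          rw [pars]
          have h9 : 2 * a ^ 2 * ∑ k ∈ Icc (1 : ℤ) N, ‖u k‖ ^ 2 ≤ 2 * a ^ 2 * N :=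
            mul_le_mul_of_nonneg_left hu1 (by positivity)
          linarith
      _ ≤ δ * N := by
          have h10 : 2 * a ^ 2 * (N : ℝ) ≤ δ / 8 * N := mul_le_mul_of_nonneg_right (by linarith) (Nat.cast_nonneg N)
          have h11 : (0 : ℝ) ≤ δ * N := by positivity
          linarith

end Pool.Agent.E8helper86.SS
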